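import Pool.Agent.Urel.Transfer

/-!
# `GBcU_R + Collection + Global Choice` is not conservative over `ZFCU`

The definitions are in `Pool.Agent.Urel.Defs`.
-/

namespace Pool.Agent.Results.MP_1b98ab_lc.NotConservative

universe u v w

/-- The two-sorted class theory `GBcU_R + Collection + Global Choice` is not conservative over
`ZFCU`: some sentence of the first-order language of urelement set theory is true in all models
(equivalently, provable in) the class theory, but false in some model of `ZFCU`. -/
theorem result : ¬ Pool.Agent.Urel.Conservative.{u, v, w} :=
  Pool.Agent.Urel.not_conservative

end Pool.Agent.Results.MP_1b98ab_lc.NotConservative
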